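import Pool.Agent.H.MP_5decda_an.D

namespace Pool.Agent.H.MP_5decda_an
open Filter Topology RCLike

variable {𝕜 : Type*} [RCLike 𝕜]

section
variable {X : Type*} [NormedAddCommGroup X] [NormedSpace 𝕜 X]

theorem re_le (g : StrongDual 𝕜 X) (x : X) : re (g x) ≤ ‖g‖ * ‖x‖ :=
  (re_le_norm _).trans (g.le_opNorm x)

theorem neg_re_le (g : StrongDual 𝕜 X) (x : X) : -re (g x) ≤ ‖g‖ * ‖x‖ := by
  have := re_le g (-x)
  simpa using this

theorem re_le' {g : StrongDual 𝕜 X} {x : X} (hx : ‖x‖ ≤ 1) : re (g x) ≤ ‖g‖ :=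
  (re_le g x).trans (mul_le_of_le_one_right (norm_nonneg _) hx)

theorem re_le'' {g : StrongDual 𝕜 X} (hg : ‖g‖ ≤ 1) (x : X) : re (g x) ≤ ‖x‖ :=
  (re_le g x).trans (mul_le_of_le_one_left (norm_nonneg _) hg)

theorem neg_re_le'' {g : StrongDual 𝕜 X} (hg : ‖g‖ ≤ 1) (x : X) : -re (g x) ≤ ‖x‖ :=
  (neg_re_le g x).trans (mul_le_of_le_one_left (norm_nonneg _) hg)

theorem exists_re (g : StrongDual 𝕜 X) {r : ℝ} (h : r < ‖g‖) : ∃ v, ‖v‖ ≤ 1 ∧ r < re (g v) := by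
  obtain ⟨v, hv, h1⟩ := g.exists_lt_apply_of_lt_opNorm h
  obtain ⟨a, ha, h2⟩ := exists_norm_eq_mul_self (g v)
  refine ⟨a • v, by rw [norm_smul, ha, one_mul]; exact hv.le, ?_⟩
  rw [map_smul, smul_eq_mul, ← h2, ofReal_re]; exact h1

theorem ulim (g : ℕ → StrongDual 𝕜 X) (hg : ∀ k, ‖g k‖ ≤ 1) :
    ∃ G : StrongDual 𝕜 X, ‖G‖ ≤ 1 ∧
      ∀ v, Tendsto (fun k => re (g k v)) (hyperfilter ℕ) (𝓝 (re (G v))) := by
  obtain ⟨G, hG, h⟩ := (WeakDual.isCompact_closedBall (0 : StrongDual 𝕜 X) 1).ultrafilter_le_nhds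
    ((hyperfilter ℕ).map fun k => StrongDual.toWeakDual (g k)) (by
      rw [Ultrafilter.coe_map, le_principal_iff, mem_map]
      exact univ_mem' fun k => by simpa using hg k)
  refine ⟨WeakDual.toStrongDual G, by simpa using hG, fun v => ?_⟩
  exact (continuous_re.tendsto _).comp (((WeakDual.eval_continuous v).tendsto G).comp h)

def DP (𝕜 : Type*) [RCLike 𝕜] (X : Type*) [NormedAddCommGroup X] [NormedSpace 𝕜 X] : Prop :=
  ∀ (f : StrongDual 𝕜 X) (x : X), f ≠ 0 → x ≠ 0 →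
    ‖ContinuousLinearMap.id 𝕜 X + f.smulRight x‖ = 1 + ‖f‖ * ‖x‖

theorem dp_iff : Daugavet 𝕜 X ↔ DP 𝕜 X := by
  constructor
  · intro h f x hf hx
    rw [← ContinuousLinearMap.norm_smulRight_apply]
    apply h
    obtain ⟨v, hv⟩ := ContinuousLinearMap.exists_ne_zero hf
    rw [finrank_eq_one_iff']
    refine ⟨⟨x, (f v)⁻¹ • v, by simp [hv]⟩, fun h => hx (congrArg Subtype.val h), ?_⟩
    rintro ⟨_, w, rfl⟩
    exact ⟨f w, rfl⟩
  · intro h T hT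
    obtain ⟨v, hv, H⟩ := finrank_eq_one_iff'.1 hT
    have hv' : (v : X) ≠ 0 := fun h => hv (Subtype.ext h)
    obtain ⟨g, -, hg⟩ := exists_dual_vector'' 𝕜 (v : X)
    have hn : ((‖(v : X)‖ : ℝ) : 𝕜) ≠ 0 := by simpa using hv'
    have e : T = (((‖(v : X)‖ : ℝ) : 𝕜)⁻¹ • g.comp T).smulRight (v : X) := by
      ext w
      obtain ⟨c, hc⟩ := H ⟨T w, w, rfl⟩
      have hc' : T w = c • (v : X) := (congrArg Subtype.val hc).symm
      simp only [ContinuousLinearMap.smulRight_apply, smul_apply,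
        ContinuousLinearMap.comp_apply, hc', map_smul, hg, smul_eq_mul]
      congr 1; field_simp
    have h0 : ((‖(v : X)‖ : ℝ) : 𝕜)⁻¹ • g.comp T ≠ 0 := by
      intro h0
      rw [h0] at e
      obtain ⟨w, hw⟩ := v.2
      apply hv'
      rw [← hw, e]; simp
    have := h _ _ h0 hv'
    rw [← ContinuousLinearMap.norm_smulRight_apply, ← e] at this
    exact this

theorem step (hD : DP 𝕜 X) {y : X} (hy : y ≠ 0) (g : StrongDual 𝕜 X) {c ε : ℝ} (hc0 : 0 ≤ c)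
    (hc : c < ‖g‖) (hε : 0 < ε) : ∃ (g' : StrongDual 𝕜 X) (c' : ℝ) (h : StrongDual 𝕜 X),
      0 ≤ c' ∧ c' < ‖g'‖ ∧ ‖h‖ ≤ 1 ∧ ‖y‖ - ε ≤ re (h y) ∧
      ∀ s, ‖s‖ ≤ 1 → c' < re (g' s) → c < re (g s) ∧ 1 - ε ≤ re (h s) := by
  have hG : 0 < ‖g‖ := by linarith
  have hY : 0 < ‖y‖ := norm_pos_iff.2 hy
  set θ := min ε (‖g‖ - c) with hθ
  have θ0 : 0 < θ := lt_min hε (by linarith)
  have θ1 : θ ≤ ε := min_le_left _ _
  have θ2 : θ ≤ ‖g‖ - c := min_le_right _ _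
  set δ := min (θ / 3) (min (θ / 3 * ‖y‖) (ε * ‖g‖)) with hδ
  have δ0 : 0 < δ := lt_min (by positivity) (lt_min (by positivity) (by positivity))
  have δ1 : δ ≤ θ / 3 := min_le_left _ _
  have δ2 : δ ≤ θ / 3 * ‖y‖ := (min_le_right _ _).trans (min_le_left _ _)
  have δ3 : δ ≤ ε * ‖g‖ := (min_le_right _ _).trans (min_le_right _ _)
  have h1 := hD g y (norm_pos_iff.1 hG) hy
  obtain ⟨s1, hs1, h2⟩ := ContinuousLinearMap.exists_lt_apply_of_lt_opNorm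
    (ContinuousLinearMap.id 𝕜 X + g.smulRight y) (r := 1 + ‖g‖ * ‖y‖ - δ) (by linarith)
  obtain ⟨a, ha, h3⟩ := exists_norm_eq_mul_self (g s1)
  set r := ‖g s1‖ with hr
  have r0 : 0 ≤ r := norm_nonneg _
  have hs0 : ‖a • s1‖ ≤ 1 := by rw [norm_smul, ha, one_mul]; exact hs1.le
  have g0 : g (a • s1) = r := by rw [map_smul, smul_eq_mul, ← h3]
  have r1 : r ≤ ‖g‖ := by simpa [g0] using re_le' (g := g) hs0
  have h4 : 1 + ‖g‖ * ‖y‖ - δ < ‖a • s1 + (r : 𝕜) • y‖ := by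
    have : a • s1 + (r : 𝕜) • y = a • (s1 + g s1 • y) := by
      rw [smul_add, smul_smul, ← h3]
    rw [this, norm_smul, ha, one_mul]
    simpa using h2
  obtain ⟨h, hh, h5⟩ := exists_dual_vector'' 𝕜 (a • s1 + (r : 𝕜) • y)
  have h6 : re (h (a • s1)) + r * re (h y) = ‖a • s1 + (r : 𝕜) • y‖ := by
    have := congrArg re h5
    rwa [map_add, map_smul h (r : 𝕜), smul_eq_mul, map_add, re_ofReal_mul, ofReal_re] at this
  set p := re (h (a • s1)) with hp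
  set q := re (h y) with hq
  have p1 : p ≤ 1 := (re_le'' hh _).trans hs0
  have q1 : q ≤ ‖y‖ := re_le'' hh _
  have rq : r * q ≤ r * ‖y‖ := mul_le_mul_of_nonneg_left q1 r0
  have rY : r * ‖y‖ ≤ ‖g‖ * ‖y‖ := mul_le_mul_of_nonneg_right r1 hY.le
  have q0 : 0 < q := by
    by_contra hq0
    have : r * q ≤ 0 := mul_nonpos_of_nonneg_of_nonpos r0 (not_lt.1 hq0)
    nlinarith
  have r2 : ‖g‖ - θ / 3 < r := by
    by_contra h7
    nlinarith
  refine ⟨h + g, p + r - δ, h, by linarith, ?_, hh, ?_, fun s hs h7 => ?_⟩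
  · have := re_le' (g := h + g) hs0
    rw [add_apply, map_add, g0, ofReal_re] at this
    linarith
  · by_contra h7
    have : r * q ≤ ‖g‖ * q := mul_le_mul_of_nonneg_right r1 q0.le
    nlinarith
  · rw [add_apply, map_add] at h7
    have a1 := (re_le'' hh s).trans hs
    have a2 := re_le' (g := g) hs
    constructor <;> linarith

theorem seq (hD : DP 𝕜 X) (f : StrongDual 𝕜 X) {c : ℝ} (hc0 : 0 ≤ c) (hc : c < ‖f‖) :
    ∃ (x : ℕ → X) (h : ℕ → StrongDual 𝕜 X), (∀ i, ‖x i‖ ≤ 1 ∧ c < re (f (x i))) ∧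
      (∀ n, ‖h n‖ ≤ 1) ∧ (∀ n i, i < n → re (h n (x i)) ≤ -(1 / 2)) ∧
      ∀ n i, n ≤ i → 9 / 10 ≤ re (h n (x i)) := by
  obtain ⟨v, hv⟩ := ContinuousLinearMap.exists_ne_zero (norm_pos_iff.1 (show 0 < ‖f‖ by linarith))
  have hv' : v ≠ 0 := fun h => hv (by simp [h])
  have he := norm_smul_inv_norm (𝕜 := 𝕜) hv'
  set e0 := ((‖v‖⁻¹ : 𝕜)) • v
  let St := {p : StrongDual 𝕜 X × ℝ × X // 0 ≤ p.2.1 ∧ p.2.1 < ‖p.1‖ ∧ p.2.2 ≠ 0}
  have nx : ∀ (n : ℕ) (p : St), ∃ (p' : St) (x : X) (h : StrongDual 𝕜 X), ‖x‖ ≤ 1 ∧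
      p'.1.2.2 = p.1.2.2 + x ∧ ‖p.1.2.2‖ + 1 - 2 * ((1 / 2) ^ n / 10) ≤ ‖p'.1.2.2‖ ∧ ‖h‖ ≤ 1 ∧
      ‖p.1.2.2‖ - (1 / 2) ^ n / 10 ≤ -re (h p.1.2.2) ∧ p'.1.2.1 < re (p'.1.1 x) ∧
      ∀ s, ‖s‖ ≤ 1 → p'.1.2.1 < re (p'.1.1 s) →
        p.1.2.1 < re (p.1.1 s) ∧ 1 - (1 / 2) ^ n / 10 ≤ re (h s) := by
    rintro n ⟨⟨g, c, σ⟩, h1, h2, h3⟩
    have ε0 : (0 : ℝ) < (1 / 2) ^ n / 10 := by positivity
    have ε1 : (1 / 2 : ℝ) ^ n ≤ 1 := pow_le_one₀ (by norm_num) (by norm_num)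
    obtain ⟨g1, c1, k1, a1, a2, a3, a4, a5⟩ := step hD h3 g h1 h2 ε0
    obtain ⟨g2, c2, k2, b1, b2, b3, b4, b5⟩ := step hD (neg_ne_zero.2 h3) g1 a1 a2 ε0
    obtain ⟨x, hx, hx'⟩ := exists_re g2 b2
    have c1 := re_le'' a3 (σ + x)
    rw [map_add, map_add] at c1
    have c2 := (a5 x hx (b5 x hx hx').1).2
    dsimp only at a4
    have c3 : ‖σ‖ + 1 - 2 * ((1 / 2) ^ n / 10) ≤ ‖σ + x‖ := by linarith
    refine ⟨⟨(g2, _, σ + x), b1, b2, ?_⟩, x, k2, hx, rfl, c3, b3, by simpa using b4, hx',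
      fun s hs h => ⟨(a5 s hs (b5 s hs h).1).1, (b5 s hs h).2⟩⟩
    rw [← norm_pos_iff]
    have := norm_nonneg σ
    dsimp only
    linarith
  choose N x h h1 h2 h3 h4 h5 h6 h7 using nx
  let P : ℕ → St := fun n => Nat.rec ⟨(f, c, e0), hc0, hc, by
    rw [← norm_pos_iff]; dsimp only; linarith⟩ (fun n p => N n p) n
  have hP : ∀ n, P (n + 1) = N n (P n) := fun n => rfl
  have mono : ∀ n m, n ≤ m → ∀ s, ‖s‖ ≤ 1 → (P m).1.2.1 < re ((P m).1.1 s) →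
      (P n).1.2.1 < re ((P n).1.1 s) := by
    intro n m hnm s hs
    induction m, hnm using Nat.le_induction with
    | base => exact id
    | succ m _ ih => exact fun H => ih (h7 m (P m) s hs H).1
  have nrm : ∀ n : ℕ, (n : ℝ) + 1 - 4 / 10 + 4 * ((1 / 2) ^ n / 10) ≤ ‖(P n).1.2.2‖ := by
    intro n
    induction n with
    | zero => change _ ≤ ‖e0‖; rw [he]; norm_num
    | succ n ih =>
      have := h3 n (P n)
      rw [← hP] at this
      push_cast; rw [pow_succ]; linarith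
  have sm : ∀ n, (P n).1.2.2 = e0 + ∑ j ∈ Finset.range n, x j (P j) := by
    intro n
    induction n with
    | zero => simp [P]
    | succ n ih => rw [hP, h2, ih, Finset.sum_range_succ, add_assoc]
  refine ⟨fun i => x i (P i), fun n => h n (P n), fun i => ⟨h1 _ _, ?_⟩, fun n => h4 _ _,
    fun n i hi => ?_, fun n i hi => ?_⟩
  · exact mono 0 (i + 1) (by omega) _ (h1 _ _) (h6 i (P i))
  · have a1 := h5 n (P n)
    have a2 := nrm n
    have a3 : 1 + re (h n (P n) (x i (P i))) ≤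
        ∑ j ∈ Finset.range n, (1 + re (h n (P n) (x j (P j)))) :=
      Finset.single_le_sum (f := fun j => 1 + re (h n (P n) (x j (P j)))) (fun j _ => by
        have := (neg_re_le'' (h4 n (P n)) (x j (P j))).trans (h1 j (P j))
        linarith) (Finset.mem_range.2 hi)
    have a4 : re (h n (P n) (P n).1.2.2) =
        re (h n (P n) e0) + ∑ j ∈ Finset.range n, re (h n (P n) (x j (P j))) := by
      rw [sm n, map_add, map_add, map_sum, map_sum]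
    have a5 := neg_re_le'' (h4 n (P n)) e0
    rw [Finset.sum_add_distrib, Finset.sum_const, Finset.card_range, nsmul_eq_mul] at a3
    have : (0 : ℝ) ≤ (1 / 2) ^ n := by positivity
    linarith
  · have a1 := (h7 n (P n) _ (h1 i (P i)) (mono (n + 1) (i + 1) (by omega) _ (h1 _ _)
      (h6 i (P i)))).2
    have ε1 : (1 / 2 : ℝ) ^ n ≤ 1 := pow_le_one₀ (by norm_num) (by norm_num)
    linarith

theorem scale (Z : Submodule 𝕜 (StrongDual 𝕜 X)) (f : X) {c : ℝ}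
    (H : ∀ z ∈ Z, ‖z‖ ≤ 1 → re (z f) ≤ c) : ∀ z ∈ Z, re (z f) ≤ c * ‖z‖ := by
  intro z hz
  by_cases h0 : z = 0
  · simp [h0]
  have hn : 0 < ‖z‖ := norm_pos_iff.2 h0
  have := H _ (Z.smul_mem ((‖z‖⁻¹ : 𝕜)) hz) (norm_smul_inv_norm h0).le
  rw [smul_apply, smul_eq_mul, ← ofReal_inv, re_ofReal_mul, inv_mul_le_iff₀ hn] at this
  linarith

theorem neg_re_le' {g : StrongDual 𝕜 X} {x : X} (hx : ‖x‖ ≤ 1) : -re (g x) ≤ ‖g‖ :=
  (neg_re_le g x).trans (mul_le_of_le_one_right (norm_nonneg _) hx)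

theorem claimA (hD : DP 𝕜 X) (Z : Submodule 𝕜 (StrongDual 𝕜 (StrongDual 𝕜 X)))
    (h1 : ∀ u, ∃ x : X, ∃ z ∈ Z, u = NormedSpace.inclusionInDoubleDual 𝕜 X x + z)
    (h2 : ∀ x : X, ∀ z ∈ Z, ‖NormedSpace.inclusionInDoubleDual 𝕜 X x + z‖ = ‖x‖ + ‖z‖)
    (f : StrongDual 𝕜 X) {c : ℝ} (hc0 : 0 ≤ c) (hc : c < ‖f‖) :
    ∃ z ∈ Z, ‖z‖ ≤ 1 ∧ c < re (z f) := by
  by_contra H
  push Not at H
  have H' := scale Z f H
  obtain ⟨x, h, a1, a2, a3, a4⟩ := seq hD f (c := ‖f‖ - (‖f‖ - c) / 4) (by linarith) (by linarith)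
  obtain ⟨v, hv, b1⟩ := ulim (fun k => NormedSpace.inclusionInDoubleDual 𝕜 X (x k)) (fun k =>
    ((NormedSpace.inclusionInDoubleDualLi 𝕜).norm_map (x k)).le.trans (a1 k).1)
  simp only [NormedSpace.dual_def] at b1
  obtain ⟨G, hG, b2⟩ := ulim h a2
  have ev : ∀ n, ∀ᶠ k in (hyperfilter ℕ : Filter ℕ), n ≤ k := fun n =>
    hyperfilter_le_cofinite (by rw [Nat.cofinite_eq_atTop]; exact eventually_ge_atTop n)
  have c1 : ‖f‖ - (‖f‖ - c) / 4 ≤ re (v f) :=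
    ge_of_tendsto (b1 f) (Eventually.of_forall fun k => (a1 k).2.le)
  have c2 : ∀ n, 9 / 10 ≤ re (v (h n)) := fun n =>
    ge_of_tendsto (b1 (h n)) ((ev n).mono fun k hk => a4 n k hk)
  have c3 : ∀ i, re (G (x i)) ≤ -(1 / 2) := fun i =>
    le_of_tendsto (b2 (x i)) ((ev (i + 1)).mono fun k hk => a3 k i hk)
  have c4 : re (v G) ≤ -(1 / 2) := le_of_tendsto (b1 G) (Eventually.of_forall c3)
  obtain ⟨y, z, hz, rfl⟩ := h1 v
  rw [h2 y z hz] at hv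
  simp only [add_apply, NormedSpace.dual_def, map_add] at c1 c2 c4
  have d1 := re_le f y
  have d2 := H' z hz
  have d3 : ‖z‖ ≤ 1 / 4 := by
    by_contra h0
    have : ‖f‖ * ‖y‖ ≤ ‖f‖ * (1 - ‖z‖) := mul_le_mul_of_nonneg_left (by linarith) (norm_nonneg _)
    nlinarith
  have d4 : 9 / 10 - 1 / 4 ≤ re (G y) := ge_of_tendsto (b2 y) (Eventually.of_forall fun n => by
    have := re_le' (g := z) (a2 n)
    linarith [c2 n])
  have d5 := neg_re_le' (g := z) hG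
  linarith

end
end Pool.Agent.H.MP_5decda_an
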