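import Pool.Agent.H.MP_5decda_an.A

namespace Pool.Agent.H.MP_5decda_an
open Filter Topology RCLike

variable {𝕜 : Type*} [RCLike 𝕜]

section
variable {V H Y : Type*} [NormedAddCommGroup V] [NormedSpace 𝕜 V]
  [NormedAddCommGroup H] [NormedSpace 𝕜 H] [NormedAddCommGroup Y] [NormedSpace 𝕜 Y]

theorem sum_norm_le {N : Type*} [Fintype N] [DecidableEq N] (ψ : StrongDual 𝕜 (N → V)) :
    ∑ n, ‖ψ.comp (ContinuousLinearMap.single 𝕜 (fun _ : N => V) n)‖ ≤ ‖ψ‖ := by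
  apply le_of_forall_pos_le_add
  intro τ hτ
  have hc : (0 : ℝ) < Fintype.card N + 1 := by positivity
  have h := fun n => exists_re (ψ.comp (ContinuousLinearMap.single 𝕜 (fun _ : N => V) n))
    (r := ‖ψ.comp (ContinuousLinearMap.single 𝕜 (fun _ : N => V) n)‖ - τ / (Fintype.card N + 1))
    (by have : 0 < τ / (Fintype.card N + 1) := by positivity
        linarith)
  choose v hv h using h
  have h1 := re_le' (g := ψ) (x := v) ((pi_norm_le_iff_of_nonneg zero_le_one).2 hv)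
  have h2 : ψ v = ∑ n, ψ.comp (ContinuousLinearMap.single 𝕜 (fun _ : N => V) n) (v n) := by
    conv_lhs => rw [← Finset.univ_sum_single v, map_sum]
    rfl
  rw [h2, map_sum] at h1
  have h3 := (Finset.sum_le_sum fun n (_ : n ∈ Finset.univ) => (h n).le).trans h1
  rw [Finset.sum_sub_distrib, Finset.sum_const, Finset.card_univ, nsmul_eq_mul] at h3
  have h4 : (Fintype.card N : ℝ) * (τ / (Fintype.card N + 1)) ≤ τ := by
    rw [← mul_div_assoc, div_le_iff₀ hc]; nlinarith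
  linarith

theorem plr [FiniteDimensional 𝕜 H]
    (Ψ : H →ₗ[𝕜] StrongDual 𝕜 V →ₗ[𝕜] 𝕜) (hΨ : ∀ h e, ‖Ψ h e‖ ≤ ‖h‖ * ‖e‖)
    {ι : Type*} [Fintype ι] (h : ι → H) (e : ι → StrongDual 𝕜 V) {ε : ℝ} (hε : 0 < ε) :
    ∃ R : H →L[𝕜] V, ‖R‖ ≤ 1 + ε ∧ re (∑ i, Ψ (h i) (e i)) - ε ≤ re (∑ i, e i (R (h i))) := by
  classical
  by_contra hc
  push Not at hc
  set c := re (∑ i, Ψ (h i) (e i)) - ε with hcd
  have c0 : 0 < c := by simpa using hc 0 (by simp; linarith)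
  have := FiniteDimensional.proper_rclike 𝕜 H
  obtain ⟨t, ht1, ht2, ht3⟩ := finite_cover_balls_of_compact (isCompact_closedBall (0 : H) 1)
    (e := ε / (1 + ε)) (by positivity)
  have := ht2.fintype
  let A : (H →L[𝕜] V) →ₗ[𝕜] (t → V) :=
    LinearMap.pi fun n => (ContinuousLinearMap.apply 𝕜 V (n : H)).toLinearMap
  have hA : ∀ R n, A R n = R n := fun _ _ => rfl
  have hA1 : ∀ R, ‖R‖ ≤ (1 + ε) * ‖A R‖ := by
    intro R
    have : ‖R‖ ≤ ‖A R‖ + ε / (1 + ε) * ‖R‖ := by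
      apply le_of_forall_lt_imp_le_of_dense
      intro r hr
      obtain ⟨x, hx, h1⟩ := R.exists_lt_apply_of_lt_opNorm hr
      obtain ⟨n, hn, h2⟩ := Set.mem_iUnion₂.1 (ht3 (show x ∈ Metric.closedBall 0 1 by
        simpa using hx.le))
      have h3 : ‖R n‖ ≤ ‖A R‖ := norm_le_pi_norm (A R) ⟨n, hn⟩
      have h4 := R.le_opNorm (x - n)
      rw [mem_ball_iff_norm] at h2
      have h5 : ‖R x‖ ≤ ‖R n‖ + ‖R (x - n)‖ := by
        rw [map_sub]; exact norm_le_norm_add_norm_sub' _ _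
      have h6 : ‖R‖ * ‖x - n‖ ≤ ‖R‖ * (ε / (1 + ε)) := by gcongr
      linarith
    have h2 : ε / (1 + ε) * ‖R‖ = ‖R‖ - ‖R‖ / (1 + ε) := by field_simp; ring
    rw [← div_le_iff₀' (by positivity)]; linarith
  let φ : (H →L[𝕜] V) →ₗ[𝕜] 𝕜 :=
    ∑ i, (e i).toLinearMap.comp (ContinuousLinearMap.apply 𝕜 V (h i)).toLinearMap
  have hφ : ∀ R, φ R = ∑ i, e i (R (h i)) := fun R => by simp [φ]
  have hφ1 : ∀ R, ‖φ R‖ ≤ c * ‖A R‖ := by
    intro R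
    rcases (norm_nonneg (A R)).eq_or_lt with h0 | h0
    · have : R = 0 := by
        have := hA1 R
        rw [← h0, mul_zero] at this
        exact norm_le_zero_iff.1 this
      simp [this]
    obtain ⟨a, ha, h1⟩ := exists_norm_eq_mul_self (φ R)
    have h2 := hc ((((‖A R‖⁻¹ : ℝ) : 𝕜) * a) • R) (by
      rw [norm_smul, norm_mul, ha, norm_ofReal, abs_of_pos (by positivity), mul_one,
        inv_mul_le_iff₀ h0, mul_comm]
      exact hA1 R)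
    rw [← hφ, map_smul, smul_eq_mul, mul_assoc, ← h1, re_ofReal_mul, ofReal_re,
      inv_mul_lt_iff₀ h0] at h2
    linarith
  have hinj : Function.Injective A := by
    rw [injective_iff_map_eq_zero]
    intro R hR
    have := hA1 R
    rw [hR, norm_zero, mul_zero] at this
    exact norm_le_zero_iff.1 this
  let f0 : LinearMap.range A →ₗ[𝕜] 𝕜 := φ.comp (LinearEquiv.ofInjective A hinj).symm.toLinearMap
  have hf0 : ∀ R, f0 ⟨A R, R, rfl⟩ = φ R := fun R =>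
    congrArg φ ((LinearEquiv.ofInjective A hinj).symm_apply_apply R)
  have hf1 : ∀ w, ‖f0 w‖ ≤ c * ‖w‖ := by
    rintro ⟨_, R, rfl⟩
    rw [hf0]; exact hφ1 R
  obtain ⟨ψ, hψ1, hψ2⟩ := exists_extension_norm_eq (LinearMap.range A) (f0.mkContinuous c hf1)
  have hψ3 : ‖ψ‖ ≤ c := hψ2.le.trans (f0.mkContinuous_norm_le c0.le hf1)
  let e' : t → StrongDual 𝕜 V := fun n => ψ.comp (ContinuousLinearMap.single 𝕜 (fun _ : t => V) n)
  have hs : ∑ n, ‖e' n‖ ≤ c := (sum_norm_le ψ).trans hψ3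
  have key : ∀ R : H →L[𝕜] V, ∑ i, e i (R (h i)) = ∑ n : t, e' n (R n) := by
    intro R
    rw [← hφ, ← hf0, ← f0.mkContinuous_apply c hf1, ← hψ1]
    change ψ (A R) = _
    conv_lhs => rw [← Finset.univ_sum_single (A R), map_sum]
    rfl
  let b := Module.finBasis 𝕜 H
  have k2 : ∀ k, ∑ i, b.repr (h i) k • e i = ∑ n : t, b.repr n k • e' n := by
    intro k
    ext v
    have := key ((LinearMap.toContinuousLinearMap (b.coord k)).smulRight v)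
    simpa using this
  have k3 : ∀ (x : H) (g : StrongDual 𝕜 V), Ψ x g = ∑ k, Ψ (b k) (b.repr x k • g) := by
    intro x g
    conv_lhs => rw [← b.sum_repr x, map_sum, LinearMap.sum_apply]
    simp
  have k4 : ∑ i, Ψ (h i) (e i) = ∑ n : t, Ψ n (e' n) := by
    simp only [k3 (h _), k3 (Subtype.val _)]
    rw [Finset.sum_comm, Finset.sum_comm (s := (Finset.univ : Finset t))]
    apply Finset.sum_congr rfl
    intro k _
    rw [← map_sum, ← map_sum, k2]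
  have k5 : re (∑ n : t, Ψ n (e' n)) ≤ ∑ n, ‖e' n‖ := by
    refine (re_le_norm _).trans ((norm_sum_le _ _).trans (Finset.sum_le_sum fun n _ => ?_))
    have h1 : ‖(n : H)‖ ≤ 1 := by simpa using ht1 n.2
    exact (hΨ _ _).trans (mul_le_of_le_one_left (norm_nonneg _) h1)
  rw [← k4] at k5
  linarith

theorem sum_close {ι : Type*} [Fintype ι] (a b : ι → 𝕜) (w : ι → ℝ) (hw : ∀ i, 0 ≤ w i) {ε : ℝ}
    (hε : 0 < ε) (h : ∀ i, ‖a i - b i‖ ≤ ε / (1 + ∑ j, w j) * w i) :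
    re (∑ i, b i) - ε ≤ re (∑ i, a i) := by
  have h0 : 0 ≤ ∑ j, w j := Finset.sum_nonneg fun j _ => hw j
  have h1 : ‖∑ i, (a i - b i)‖ ≤ ε / (1 + ∑ j, w j) * ∑ j, w j := by
    rw [Finset.mul_sum]
    exact (norm_sum_le _ _).trans (Finset.sum_le_sum fun i _ => h i)
  have h2 : ε / (1 + ∑ j, w j) * ∑ j, w j ≤ ε := by
    rw [div_mul_eq_mul_div, div_le_iff₀ (by positivity)]; nlinarith
  have h3 := (abs_le.1 ((abs_re_le_norm (∑ i, (a i - b i))).trans (h1.trans h2))).1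
  rw [Finset.sum_sub_distrib, map_sub] at h3
  linarith

theorem approx2 {E : Type*} [NormedAddCommGroup E] [NormedSpace 𝕜 E] [FiniteDimensional 𝕜 E]
    (S1 : StrongDual 𝕜 V →ₗ[𝕜] E) (S2 : E →ₗ[𝕜] StrongDual 𝕜 V) (h1 : ∀ e, ‖S1 e‖ ≤ ‖e‖)
    (h2 : ∀ a, ‖S2 a‖ ≤ ‖a‖)
    (Φ : Y →ₗ[𝕜] StrongDual 𝕜 V →ₗ[𝕜] 𝕜) (hΦ : ∀ y e, ‖Φ y e‖ ≤ ‖y‖ * ‖e‖)
    {ι : Type*} [Fintype ι] (y : ι → Y) (e : ι → StrongDual 𝕜 V) {ε : ℝ} (hε : 0 < ε) :
    ∃ T : Y →L[𝕜] V, ‖T‖ ≤ 1 + ε ∧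
      re (∑ i, Φ (y i) (S2 (S1 (e i)))) - ε ≤ re (∑ i, e i (T (y i))) := by
  let A : Y →L[𝕜] StrongDual 𝕜 E := LinearMap.mkContinuous₂ (Φ.compl₂ S2) 1 fun y a => by
    rw [one_mul]
    exact (hΦ _ _).trans (mul_le_mul_of_nonneg_left (h2 a) (norm_nonneg _))
  have hA : ‖A‖ ≤ 1 := LinearMap.mkContinuous₂_norm_le _ zero_le_one _
  let Ψ : StrongDual 𝕜 E →ₗ[𝕜] StrongDual 𝕜 V →ₗ[𝕜] 𝕜 :=
    (ContinuousLinearMap.coeLM 𝕜).compl₂ S1
  obtain ⟨R, hR, h⟩ := plr Ψ (fun θ e =>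
    (θ.le_opNorm (S1 e)).trans (mul_le_mul_of_nonneg_left (h1 e) (norm_nonneg _)))
    (fun i => A (y i)) e hε
  refine ⟨R.comp A, (R.opNorm_comp_le A).trans ?_, h⟩
  exact (mul_le_of_le_one_right (norm_nonneg _) hA).trans hR

theorem approx (hm : MAP 𝕜 (StrongDual 𝕜 V) ∨ MAP 𝕜 Y)
    (Φ : Y →ₗ[𝕜] StrongDual 𝕜 V →ₗ[𝕜] 𝕜) (hΦ : ∀ y e, ‖Φ y e‖ ≤ ‖y‖ * ‖e‖)
    {ι : Type*} [Fintype ι] (y : ι → Y) (e : ι → StrongDual 𝕜 V) {ε : ℝ} (hε : 0 < ε) :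
    ∃ T : Y →L[𝕜] V, ‖T‖ ≤ 1 + ε ∧
      re (∑ i, Φ (y i) (e i)) - 2 * ε ≤ re (∑ i, e i (T (y i))) := by
  rcases hm with hm | hm
  · have h0 : 0 ≤ ∑ j, ‖y j‖ := Finset.sum_nonneg fun j _ => norm_nonneg _
    obtain ⟨S, hS1, hS2, hS3⟩ := hm (Set.range e) (Set.finite_range e).isCompact
      (ε / (1 + ∑ j, ‖y j‖)) (by positivity)
    obtain ⟨T, hT, h⟩ := approx2 (E := LinearMap.range (S : StrongDual 𝕜 V →ₗ[𝕜] StrongDual 𝕜 V))
      (LinearMap.rangeRestrict _) (Submodule.subtype _)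
      (fun e => (S.le_opNorm e).trans (mul_le_of_le_one_left (norm_nonneg _) hS2))
      (fun a => le_rfl) Φ hΦ y e hε
    refine ⟨T, hT, le_trans ?_ h⟩
    have := sum_close (fun i => Φ (y i) (S (e i))) (fun i => Φ (y i) (e i)) (fun i => ‖y i‖)
      (fun i => norm_nonneg _) hε fun i => by
        rw [← map_sub, mul_comm]
        exact (hΦ _ _).trans (mul_le_mul_of_nonneg_left (hS3 _ ⟨i, rfl⟩).le (norm_nonneg _))
    change _ ≤ re (∑ i, Φ (y i) (S (e i))) - ε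
    linarith
  · have h0 : 0 ≤ ∑ j, ‖e j‖ := Finset.sum_nonneg fun j _ => norm_nonneg _
    obtain ⟨S, hS1, hS2, hS3⟩ := hm (Set.range y) (Set.finite_range y).isCompact
      (ε / (1 + ∑ j, ‖e j‖)) (by positivity)
    let A : Y →L[𝕜] LinearMap.range (S : Y →ₗ[𝕜] Y) := S.codRestrict _ fun v => ⟨v, rfl⟩
    obtain ⟨R, hR, h⟩ := plr (Φ.comp (LinearMap.range (S : Y →ₗ[𝕜] Y)).subtype)
      (fun a e => hΦ _ _) (fun i => A (y i)) e hε
    refine ⟨R.comp A, ContinuousLinearMap.opNorm_le_bound _ (by linarith) fun v => ?_,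
      le_trans ?_ h⟩
    · refine (R.le_opNorm _).trans (mul_le_mul hR ?_ (norm_nonneg _) (by linarith))
      exact (S.le_opNorm v).trans (mul_le_of_le_one_left (norm_nonneg _) hS2)
    · have := sum_close (fun i => Φ (S (y i)) (e i)) (fun i => Φ (y i) (e i)) (fun i => ‖e i‖)
        (fun i => norm_nonneg _) hε fun i => by
          rw [← LinearMap.sub_apply, ← map_sub]
          exact (hΦ _ _).trans (mul_le_mul_of_nonneg_right (hS3 _ ⟨i, rfl⟩).le (norm_nonneg _))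
      change _ ≤ re (∑ i, Φ (S (y i)) (e i)) - ε
      linarith

theorem glue (hm : MAP 𝕜 (StrongDual 𝕜 V) ∨ MAP 𝕜 Y)
    (Q : StrongDual 𝕜 V →ₗ[𝕜] StrongDual 𝕜 V) (hQ : ∀ e, ‖Q e‖ + ‖e - Q e‖ ≤ ‖e‖)
    (T0 G : Y →L[𝕜] V) (h0 : ‖T0‖ ≤ 1) (hG : ‖G‖ ≤ 1)
    {n : ℕ} (y : Fin n → Y) (e : Fin n → StrongDual 𝕜 V) (he : ∀ i, Q (e i) = e i)
    (y0 : Y) (u : StrongDual 𝕜 V) (hu : Q u = 0) {ε : ℝ} (hε : 0 < ε) :
    ∃ T : Y →L[𝕜] V, ‖T‖ ≤ 1 + ε ∧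
      re (∑ i, e i (T0 (y i))) + re (u (G y0)) - 2 * ε ≤
        re (∑ i, e i (T (y i))) + re (u (T y0)) := by
  let ev : V →ₗ[𝕜] StrongDual 𝕜 V →ₗ[𝕜] 𝕜 := (ContinuousLinearMap.coeLM 𝕜).flip
  let Φ : Y →ₗ[𝕜] StrongDual 𝕜 V →ₗ[𝕜] 𝕜 := (ev.comp T0.toLinearMap).compl₂ Q +
    (ev.comp G.toLinearMap).compl₂ (LinearMap.id - Q)
  have hΦ : ∀ y e, Φ y e = Q e (T0 y) + (e - Q e) (G y) := fun _ _ => rfl
  obtain ⟨T, hT, h⟩ := approx hm Φ (fun y e => by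
    rw [hΦ]
    have a1 : ‖T0 y‖ ≤ ‖y‖ := (T0.le_opNorm y).trans (mul_le_of_le_one_left (norm_nonneg _) h0)
    have a2 : ‖G y‖ ≤ ‖y‖ := (G.le_opNorm y).trans (mul_le_of_le_one_left (norm_nonneg _) hG)
    have a3 := ((Q e).le_opNorm _).trans (mul_le_mul_of_nonneg_left a1 (norm_nonneg _))
    have a4 := ((e - Q e).le_opNorm _).trans (mul_le_mul_of_nonneg_left a2 (norm_nonneg _))
    have a5 := mul_le_mul_of_nonneg_right (hQ e) (norm_nonneg y)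
    refine (norm_add_le _ _).trans ?_
    nlinarith) (ι := Option (Fin n)) (fun o => o.elim y0 y) (fun o => o.elim u e) hε
  refine ⟨T, hT, ?_⟩
  simp only [Fintype.sum_option, Option.elim, hΦ, he, hu, sub_self, sub_zero, zero_apply,
    add_zero, zero_add, map_add] at h
  linarith

end
end Pool.Agent.H.MP_5decda_an
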