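import Pool.Agent.H.MP_5decda_an.B

namespace Pool.Agent.H.MP_5decda_an
open Filter Topology RCLike
open scoped TensorProduct

variable {𝕜 : Type*} [RCLike 𝕜]
variable {X Y W : Type*} [NormedAddCommGroup X] [NormedSpace 𝕜 X]
  [NormedAddCommGroup Y] [NormedSpace 𝕜 Y] [NormedAddCommGroup W] [NormedSpace 𝕜 W]

theorem exists_Q (J : X →ₗ[𝕜] W) (hJ : ∀ x, ‖J x‖ = ‖x‖) (Z : Submodule 𝕜 W)
    (h1 : ∀ u, ∃ x : X, ∃ z ∈ Z, u = J x + z) (h2 : ∀ x : X, ∀ z ∈ Z, ‖J x + z‖ = ‖x‖ + ‖z‖) :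
    ∃ Q : W →ₗ[𝕜] W, (∀ e, ‖Q e‖ + ‖e - Q e‖ ≤ ‖e‖) ∧ (∀ x, Q (J x) = J x) ∧ ∀ z ∈ Z, Q z = 0 := by
  have hc : IsCompl (LinearMap.range J) Z := by
    constructor
    · rw [Submodule.disjoint_def]
      rintro _ ⟨x, rfl⟩ hz
      have := h2 x _ (Z.neg_mem hz)
      rw [add_neg_cancel, norm_zero, norm_neg] at this
      have h := norm_nonneg x
      exact norm_le_zero_iff.1 (by linarith)
    · rw [codisjoint_iff, eq_top_iff]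
      intro u _
      obtain ⟨x, z, hz, rfl⟩ := h1 u
      exact Submodule.add_mem_sup ⟨x, rfl⟩ hz
  have a1 : ∀ x, (LinearMap.range J).projection Z hc (J x) = J x := fun x =>
    Submodule.projection_apply_of_mem_left hc ⟨x, rfl⟩
  have a2 : ∀ z ∈ Z, (LinearMap.range J).projection Z hc z = 0 := fun z hz => by
    rw [Submodule.projection_apply, (Submodule.projectionOnto_apply_eq_zero_iff hc).2 hz]; rfl
  refine ⟨_, fun e => ?_, a1, a2⟩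
  obtain ⟨x, z, hz, rfl⟩ := h1 e
  rw [map_add, a1, a2 z hz, h2 x z hz, add_zero, add_sub_cancel_left, hJ]

theorem exists_Q' (J : X →L[𝕜] StrongDual 𝕜 W) (hJ : ∀ x, ‖J x‖ = ‖x‖)
    (Z : Submodule 𝕜 (StrongDual 𝕜 W)) (h1 : ∀ u, ∃ x : X, ∃ z ∈ Z, u = J x + z)
    (h2 : ∀ x : X, ∀ z ∈ Z, ‖J x + z‖ = ‖x‖ + ‖z‖) :
    ∃ Q : StrongDual 𝕜 W →ₗ[𝕜] StrongDual 𝕜 W,
      (∀ e, ‖Q e‖ + ‖e - Q e‖ ≤ ‖e‖) ∧ (∀ x, Q (J x) = J x) ∧ ∀ z ∈ Z, Q z = 0 :=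
  exists_Q J.toLinearMap hJ Z h1 h2

theorem proj_tmul (x : X) (y : Y) : projNorm (x ⊗ₜ[𝕜] y) ≤ ‖x‖ * ‖y‖ := by
  unfold projNorm
  refine csInf_le ⟨0, ?_⟩ ⟨1, fun _ => x, fun _ => y, by simp, by simp⟩
  rintro _ ⟨n, x, y, -, rfl⟩
  positivity

theorem le_proj (L : X ⊗[𝕜] Y →ₗ[𝕜] 𝕜) {C : ℝ} (hC : 0 ≤ C)
    (h : ∀ x y, ‖L (x ⊗ₜ[𝕜] y)‖ ≤ C * (‖x‖ * ‖y‖)) (z : X ⊗[𝕜] Y) : ‖L z‖ ≤ C * projNorm z := by
  have key : ∀ r ∈ {r | ∃ (n : ℕ) (x : Fin n → X) (y : Fin n → Y),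
      z = ∑ i, x i ⊗ₜ[𝕜] y i ∧ r = ∑ i, ‖x i‖ * ‖y i‖}, ‖L z‖ ≤ C * r := by
    rintro _ ⟨n, x, y, rfl, rfl⟩
    rw [map_sum, Finset.mul_sum]
    exact (norm_sum_le _ _).trans (Finset.sum_le_sum fun i _ => h _ _)
  obtain ⟨n, x, y, hz⟩ := TensorProduct.exists_sum_tmul_eq z
  rcases hC.eq_or_lt with h0 | h0
  · have := key _ ⟨n, x, y, hz, rfl⟩
    rw [← h0, zero_mul] at this ⊢
    exact this
  · rw [← div_le_iff₀' h0]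
    exact le_csInf ⟨_, n, x, y, hz, rfl⟩ fun r hr => (div_le_iff₀' h0).2 (key r hr)

noncomputable def lf (T : Y →L[𝕜] StrongDual 𝕜 X) : X ⊗[𝕜] Y →ₗ[𝕜] 𝕜 :=
  TensorProduct.lift ((ContinuousLinearMap.coeLM 𝕜).comp T.toLinearMap).flip

theorem lf_tmul (T : Y →L[𝕜] StrongDual 𝕜 X) (x : X) (y : Y) : lf T (x ⊗ₜ[𝕜] y) = T y x := by
  simp [lf]

theorem lf_le (T : Y →L[𝕜] StrongDual 𝕜 X) {C : ℝ} (hT : ‖T‖ ≤ C) (z : X ⊗[𝕜] Y) :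
    ‖lf T z‖ ≤ C * projNorm z :=
  le_proj _ (T.opNorm_nonneg.trans hT) (fun x y => by
    rw [lf_tmul, mul_comm ‖x‖, ← mul_assoc]
    exact (T.le_opNorm₂ y x).trans (by gcongr)) z

theorem exists_bil (j : X ⊗[𝕜] Y →ₗ[𝕜] W) (hd : DenseRange j) (hj : ∀ z, ‖j z‖ = projNorm z)
    (F : StrongDual 𝕜 W) :
    ∃ T : Y →L[𝕜] StrongDual 𝕜 X, ‖T‖ = ‖F‖ ∧ ∀ x y, T y x = F (j (x ⊗ₜ[𝕜] y)) := by
  have hb : ∀ (y : Y) (x : X), ‖((TensorProduct.mk 𝕜 X Y).flip.compr₂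
      (F.toLinearMap.comp j)) y x‖ ≤ ‖F‖ * ‖y‖ * ‖x‖ := fun y x => by
    refine (F.le_opNorm (j (x ⊗ₜ[𝕜] y))).trans ?_
    rw [hj, mul_assoc, mul_comm ‖y‖]
    exact mul_le_mul_of_nonneg_left (proj_tmul x y) (norm_nonneg _)
  refine ⟨LinearMap.mkContinuous₂ _ ‖F‖ hb, le_antisymm
    (LinearMap.mkContinuous₂_norm_le _ (norm_nonneg _) hb) ?_, fun _ _ => rfl⟩
  set T := LinearMap.mkContinuous₂ _ ‖F‖ hb
  apply F.opNorm_le_bound T.opNorm_nonneg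
  intro w
  refine hd.induction_on (p := fun w => ‖F w‖ ≤ ‖T‖ * ‖w‖) w
    (isClosed_le (by fun_prop) (by fun_prop)) fun z => ?_
  have e : F.toLinearMap.comp j = lf T := TensorProduct.ext' fun x y => by rw [lf_tmul]; rfl
  have : F (j z) = lf T z := by rw [← e]; rfl
  rw [this, hj]
  exact lf_le T le_rfl z

theorem near_one {a : 𝕜} {θ : ℝ} (hθ : 0 < θ) (h1 : ‖a‖ ≤ 1) (h2 : 1 - θ ^ 2 / 2 ≤ re a) :
    ‖a - 1‖ ≤ θ := by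
  refine (pow_le_pow_iff_left₀ (norm_nonneg _) hθ.le two_ne_zero).1 ?_
  have h3 : ‖a‖ ^ 2 ≤ 1 := pow_le_one₀ (norm_nonneg _) h1
  rw [norm_sq_eq_def] at h3 ⊢
  simp only [map_sub, one_re, one_im]
  nlinarith

theorem slice (hD : DP 𝕜 X) (hL : LEmbedded 𝕜 X)
    (hm : MAP 𝕜 (StrongDual 𝕜 (StrongDual 𝕜 X)) ∨ MAP 𝕜 Y)
    (j : X ⊗[𝕜] Y →ₗ[𝕜] W) (hd : DenseRange j) (hj : ∀ z, ‖j z‖ = projNorm z)
    (G0 : StrongDual 𝕜 W) (hG0 : ‖G0‖ = 1) (z : X ⊗[𝕜] Y) {η : ℝ} (hη : 0 < η) (hη1 : η ≤ 1) :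
    ∃ ζ : W, ‖ζ‖ ≤ 1 ∧ 1 - 3 * η ≤ re (G0 ζ) ∧ ‖j z‖ + 1 - 6 * η ≤ ‖j z + ζ‖ := by
  obtain ⟨J, hJ, Z, -, h1, h2⟩ := hL
  obtain rfl : J = NormedSpace.inclusionInDoubleDual 𝕜 X := by
    funext x; ext v; exact hJ x v
  obtain ⟨Q, q1, q2, q3⟩ := exists_Q' (NormedSpace.inclusionInDoubleDual 𝕜 X)
    (NormedSpace.inclusionInDoubleDualLi 𝕜).norm_map Z h1 h2
  obtain ⟨G, hG, hG'⟩ := exists_bil j hd hj G0
  obtain ⟨y0, hy0, a1⟩ := G.exists_lt_apply_of_lt_opNorm (r := 1 - η) (by linarith)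
  obtain ⟨u, hu, a2, a3⟩ := claimA hD Z h1 h2 (G y0) (by linarith) a1
  obtain ⟨F0, hF0, a4⟩ := exists_dual_vector'' 𝕜 (j z)
  obtain ⟨T0, hT0, hT0'⟩ := exists_bil j hd hj F0
  obtain ⟨n, x, y, hz⟩ := TensorProduct.exists_sum_tmul_eq z
  have N0 := norm_nonneg (j z)
  set N := ‖j z‖ with hN
  set ε := η / (3 + N) with hε
  have ε0 : 0 < ε := by positivity
  have ε1 : ε * (3 + N) = η := by rw [hε]; field_simp
  obtain ⟨T, hT, a5⟩ := glue hm Q q1 T0 G (by linarith) (by linarith) y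
    (fun i => NormedSpace.inclusionInDoubleDual 𝕜 X (x i)) (fun i => q2 (x i)) y0 u (q3 u hu) ε0
  simp only [NormedSpace.dual_def] at a5
  have b1 : ∑ i, T0 (y i) (x i) = (N : 𝕜) := by
    rw [← a4, hz, map_sum, map_sum]; simp only [hT0']
  have b2 : ∑ i, T (y i) (x i) = lf T z := by
    rw [hz, map_sum]; simp only [lf_tmul]
  rw [b1, b2, ofReal_re] at a5
  have b3 := (re_le_norm _).trans (lf_le T hT z)
  rw [← hj] at b3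
  have c1 : ‖T y0‖ ≤ 1 + ε :=
    (T.le_opNorm y0).trans ((mul_le_of_le_one_right T.opNorm_nonneg hy0.le).trans hT)
  have c2 : ‖G y0‖ ≤ 1 :=
    (G.le_opNorm y0).trans ((mul_le_of_le_one_right G.opNorm_nonneg hy0.le).trans (by linarith))
  have c3 := re_le'' a2 (T y0)
  have c4 := re_le'' a2 (G y0 + T y0)
  rw [map_add, map_add] at c4
  obtain ⟨s, hs, c5⟩ := exists_re (G y0 + T y0) (r := 2 - 2 * η - 2 * ε - ε * N) (by nlinarith)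
  rw [add_apply, map_add] at c5
  have c6 := re_le' (g := G y0) hs
  have c7 := re_le' (g := T y0) hs
  have d1 : ‖j (s ⊗ₜ[𝕜] y0)‖ ≤ 1 := by
    rw [hj]
    exact (proj_tmul s y0).trans (mul_le_one₀ hs (norm_nonneg _) hy0.le)
  refine ⟨j (s ⊗ₜ[𝕜] y0), d1, by rw [← hG']; nlinarith, ?_⟩
  have d2 := (re_le_norm _).trans (lf_le T hT (z + s ⊗ₜ[𝕜] y0))
  rw [← hj, map_add, map_add, map_add, lf_tmul] at d2
  have d3 := norm_add_le (j z) (j (s ⊗ₜ[𝕜] y0))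
  have d4 : ε * ‖j z + j (s ⊗ₜ[𝕜] y0)‖ ≤ ε * (N + 1) := by gcongr; linarith
  nlinarith

theorem main (hD : DP 𝕜 X) (hL : LEmbedded 𝕜 X)
    (hm : MAP 𝕜 (StrongDual 𝕜 (StrongDual 𝕜 X)) ∨ MAP 𝕜 Y)
    (j : X ⊗[𝕜] Y →ₗ[𝕜] W) (hd : DenseRange j) (hj : ∀ z, ‖j z‖ = projNorm z) : DP 𝕜 W := by
  intro F w hF _
  apply le_antisymm
  · refine (norm_add_le _ _).trans ?_
    rw [ContinuousLinearMap.norm_smulRight_apply]
    linarith [ContinuousLinearMap.norm_id_le (𝕜 := 𝕜) (E := W)]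
  have hF0 : 0 < ‖F‖ := norm_pos_iff.2 hF
  have key : ∀ θ : ℝ, 0 < θ → θ ≤ 1 → 1 + ‖F‖ * ‖w‖ - θ * (3 + ‖F‖ * ‖w‖) ≤
      ‖ContinuousLinearMap.id 𝕜 W + F.smulRight w‖ := by
    intro θ θ0 θ1
    obtain ⟨z, hz⟩ := hd.exists_dist_lt ((‖F‖ : 𝕜) • w) θ0
    rw [dist_eq_norm] at hz
    obtain ⟨ζ, a1, a2, a3⟩ := slice hD hL hm j hd hj _ (norm_smul_inv_norm (𝕜 := 𝕜) hF) z
      (η := θ ^ 2 / 6) (by positivity) (by nlinarith)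
    set a := ((‖F‖⁻¹ : 𝕜) • F) ζ with ha
    have b1 : ‖a‖ ≤ 1 := by
      have := ((‖F‖⁻¹ : 𝕜) • F).le_opNorm ζ
      rw [norm_smul_inv_norm hF] at this
      linarith
    have b2 := near_one θ0 b1 (by linarith)
    have b3 : F ζ = ‖F‖ * a := by
      have : ((‖F‖ : ℝ) : 𝕜) ≠ 0 := by simpa using hF
      rw [ha, smul_apply, smul_eq_mul]; field_simp
    have b4 := (ContinuousLinearMap.id 𝕜 W + F.smulRight w).le_opNorm ζ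
    have b5 : (ContinuousLinearMap.id 𝕜 W + F.smulRight w) ζ =
        (j z + ζ) + (((‖F‖ : 𝕜) • w - j z) + (a - 1) • ((‖F‖ : 𝕜) • w)) := by
      simp only [add_apply, ContinuousLinearMap.id_apply, ContinuousLinearMap.smulRight_apply, b3]
      module
    have b6 : ‖(‖F‖ : 𝕜) • w‖ = ‖F‖ * ‖w‖ := by rw [norm_smul, norm_ofReal, abs_norm]
    have b7 := norm_add_le ((‖F‖ : 𝕜) • w - j z) ((a - 1) • ((‖F‖ : 𝕜) • w))
    rw [norm_smul (a - 1), b6] at b7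
    have b8 : ‖a - 1‖ * (‖F‖ * ‖w‖) ≤ θ * (‖F‖ * ‖w‖) := by gcongr
    have b9 := norm_le_norm_add_norm_sub' ((‖F‖ : 𝕜) • w) (j z)
    have b10 := norm_le_add_norm_add (j z + ζ)
      (((‖F‖ : 𝕜) • w - j z) + (a - 1) • ((‖F‖ : 𝕜) • w))
    rw [← b5] at b10
    have b11 := mul_le_of_le_one_right
      (norm_nonneg (ContinuousLinearMap.id 𝕜 W + F.smulRight w)) a1
    nlinarith
  apply le_of_forall_pos_le_add
  intro ε hε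
  have hp : 0 < 3 + ‖F‖ * ‖w‖ := by positivity
  have := key (min 1 (ε / (3 + ‖F‖ * ‖w‖))) (lt_min one_pos (by positivity)) (min_le_left _ _)
  have h2 := (le_div_iff₀ hp).1 (min_le_right 1 (ε / (3 + ‖F‖ * ‖w‖)))
  linarith

end Pool.Agent.H.MP_5decda_an
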