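import Mathlib

namespace Pool.Agent.H.MP_5decda_an
open scoped TensorProduct

variable (𝕜 : Type*) [RCLike 𝕜]

/-- The Daugavet property: the Daugavet equation for all rank-one operators. -/
def Daugavet (X : Type*) [NormedAddCommGroup X] [NormedSpace 𝕜 X] : Prop :=
  ∀ T : X →L[𝕜] X, Module.finrank 𝕜 (LinearMap.range (T : X →ₗ[𝕜] X)) = 1 →
    ‖ContinuousLinearMap.id 𝕜 X + T‖ = 1 + ‖T‖

/-- `B = J(X) ⊕₁ Z` for a closed subspace `Z`. -/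
def LSum {X B : Type*} [NormedAddCommGroup X] [NormedAddCommGroup B] [NormedSpace 𝕜 B]
    (J : X → B) : Prop :=
  ∃ Z : Submodule 𝕜 B, IsClosed (Z : Set B) ∧ (∀ u, ∃ x : X, ∃ z ∈ Z, u = J x + z) ∧
    ∀ x : X, ∀ z ∈ Z, ‖J x + z‖ = ‖x‖ + ‖z‖

/-- `V* = J(X) ⊕₁ Z` where `J x` is the functional `v ↦ p v x`. -/
def LSumDual {X V : Type*} [NormedAddCommGroup X] [NormedAddCommGroup V] [NormedSpace 𝕜 V]
    (p : V → X → 𝕜) : Prop :=
  ∃ J : X → StrongDual 𝕜 V, (∀ x v, J x v = p v x) ∧ LSum 𝕜 J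

/-- `X** = X ⊕₁ Z` for the canonical embedding. -/
def LEmbedded (X : Type*) [NormedAddCommGroup X] [NormedSpace 𝕜 X] : Prop :=
  LSumDual 𝕜 fun (f : StrongDual 𝕜 X) (x : X) => f x

/-- The metric approximation property. -/
def MAP (X : Type*) [NormedAddCommGroup X] [NormedSpace 𝕜 X] : Prop :=
  ∀ K : Set X, IsCompact K → ∀ ε : ℝ, 0 < ε → ∃ S : X →L[𝕜] X,
    FiniteDimensional 𝕜 (LinearMap.range (S : X →ₗ[𝕜] X)) ∧ ‖S‖ ≤ 1 ∧ ∀ x ∈ K, ‖S x - x‖ < ε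

/-- The dual space has the MAP. -/
def DualMAP (V : Type*) [NormedAddCommGroup V] [NormedSpace 𝕜 V] : Prop :=
  MAP 𝕜 (StrongDual 𝕜 V)

variable {𝕜} {X Y : Type*} [NormedAddCommGroup X] [NormedSpace 𝕜 X]
  [NormedAddCommGroup Y] [NormedSpace 𝕜 Y]

/-- The projective norm on the algebraic tensor product. -/
noncomputable def projNorm (z : X ⊗[𝕜] Y) : ℝ :=
  sInf {r | ∃ (n : ℕ) (x : Fin n → X) (y : Fin n → Y),
    z = ∑ i, x i ⊗ₜ[𝕜] y i ∧ r = ∑ i, ‖x i‖ * ‖y i‖}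

end Pool.Agent.H.MP_5decda_an
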